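import Pool.Agent.R888.AR.Upper
import Pool.Agent.R888.AR.Lower

/-! The attacking cop number of every grid. -/

set_option autoImplicit false

namespace Pool.Agent.Results.MP_cd85a3_co.GridAttackCopNumber

open Pool.Agent.R888.AR

/-- The attacking cop number of the grid `P_{m 0} □ ⋯ □ P_{m (n-1)}`, `n ≥ 1`, all `m i ≥ 2`, is
`1` if `n = 1` and `m 0 ≤ 3`, `2` for the cube `Q₃`, and `⌈n/2⌉ + 1` in all other cases. -/
theorem result (n : ℕ) (m : Fin n → ℕ) (hn : 1 ≤ n) (hm : ∀ i, 2 ≤ m i) :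
    cc (grid m) = if n = 1 ∧ ∀ i, m i ≤ 3 then 1 else if n = 3 ∧ ∀ i, m i = 2 then 2
      else (n + 1) / 2 + 1 := by
  by_cases h1 : n = 1 ∧ ∀ i, m i ≤ 3
  · rw [if_pos h1]
    obtain ⟨rfl, h⟩ := h1
    exact exc1 m hm h
  · rw [if_neg h1]
    by_cases h3 : n = 3 ∧ ∀ i, m i = 2
    · rw [if_pos h3]
      obtain ⟨rfl, h⟩ := h3
      exact exc3 m h
    · rw [if_neg h3]
      have hup : (n + 1) / 2 + 1 ∈ {k | ∃ c : Fin k → (∀ i, Fin (m i)),
          ∀ r, (∃ i, c i = r) ∨ Win (grid m) Finset.univ c r} := upper n m hn hm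
      apply le_antisymm
      · exact Nat.sInf_le hup
      · refine le_csInf ⟨_, hup⟩ ?_
        intro k hk
        by_contra hlt
        exact lower n m hn hm h1 h3 k (by omega) hk

end Pool.Agent.Results.MP_cd85a3_co.GridAttackCopNumber
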